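import Pool.Agent.Lib.MP_a5d0b3_an.Base

set_option autoImplicit false
open MeasureTheory Filter Topology

namespace Pool.Agent.Results.MP_a5d0b3_an.RotationBase

/-- If a measure quasi-generic for the Liouville function gives a system isomorphic to a skew
product `(x, y) ↦ (x, α x + y)` of irrational rotations, then the law of `α` is absolutely
continuous and its symmetrisation dominates Lebesgue measure. -/
theorem result (κ : Measure (ℤ → ℤ)) (M : ℕ → ℕ) (hκ : IsProbabilityMeasure κ)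
    (hM : Tendsto M atTop atTop)
    (hgen : ∀ (F : Finset ℤ) (p : ℤ → ℤ),
      Tendsto (fun k : ℕ =>
        ((((Finset.Icc (1 : ℤ) (M k)).filter (fun m : ℤ =>
            ∀ i ∈ F, (-1 : ℤ) ^ (ArithmeticFunction.cardFactors (m + i).natAbs) = p i)).card : ℝ)
          / (M k : ℝ)))
        atTop (𝓝 (κ {x : ℤ → ℤ | ∀ i ∈ F, x i = p i}).toReal))
    (X : Type) [MeasurableSpace X] [StandardBorelSpace X] (μ : Measure X) [IsProbabilityMeasure μ]
    (α : X → UnitAddCircle) (hα : Measurable α) (hirr : ∀ᵐ x ∂μ, ¬ IsOfFinAddOrder (α x))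
    (φ : (ℤ → ℤ) → X × UnitAddCircle) (ψ : X × UnitAddCircle → (ℤ → ℤ))
    (hφ : MeasurePreserving φ κ (μ.prod volume)) (hψ : MeasurePreserving ψ (μ.prod volume) κ)
    (h1 : ∀ᵐ ω ∂κ, φ (fun n => ω (n + 1)) = ((φ ω).1, α (φ ω).1 + (φ ω).2))
    (h2 : ∀ᵐ z ∂(μ.prod volume), ψ (z.1, α z.1 + z.2) = fun n => ψ z (n + 1))
    (h3 : ∀ᵐ ω ∂κ, ψ (φ ω) = ω) (h4 : ∀ᵐ z ∂(μ.prod volume), φ (ψ z) = z) :
    μ.map α ≪ volume ∧ volume ≪ μ.map α + μ.map (fun x => -α x) :=
  Pool.Agent.Lib.MP_a5d0b3_an.Gen.base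
    (a := fun n => (-1 : ℤ) ^ (ArithmeticFunction.cardFactors n.natAbs))
    ⟨fun _ => neg_one_pow_eq_or _ _, hM, hgen⟩
    (fun m n hm hn => by
      beta_reduce
      rw [Int.natAbs_mul, ArithmeticFunction.cardFactors_mul (by omega) (by omega), pow_add])
    hα (hirr.mono fun _ h => addOrderOf_eq_zero h) hφ hψ h1 h2 h3 h4

end Pool.Agent.Results.MP_a5d0b3_an.RotationBase
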