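import Pool.Agent.Lib.MP_a5d0b3_an.Spec

set_option autoImplicit false
open MeasureTheory Filter Topology

namespace Pool.Agent.Results.MP_a5d0b3_an.SpectralMeasure

/-- Let `κ` be quasi-generic (Cesàro averages) for a completely multiplicative `±1` sequence, for
instance the Liouville function. If every set invariant under a power of the shift is invariant
under the shift, then the spectral measure of the zero coordinate is absolutely continuous away
from `0`, and it is the point mass at `0` or it dominates Lebesgue measure. -/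
theorem result (a : ℤ → ℤ) (hval : ∀ n, a n = 1 ∨ a n = -1)
    (hmul : ∀ m n : ℤ, 0 < m → 0 < n → a (m * n) = a m * a n)
    (κ : Measure (ℤ → ℤ)) (M : ℕ → ℕ) (hκ : IsProbabilityMeasure κ)
    (hM : Tendsto M atTop atTop)
    (hgen : ∀ (F : Finset ℤ) (p : ℤ → ℤ),
      Tendsto (fun k : ℕ =>
        ((((Finset.Icc (1 : ℤ) (M k)).filter (fun m : ℤ => ∀ i ∈ F, a (m + i) = p i)).card : ℝ)
          / (M k : ℝ)))
        atTop (𝓝 (κ {x : ℤ → ℤ | ∀ i ∈ F, x i = p i}).toReal))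
    (hrat : ∀ q : ℕ, 0 < q → ∀ A : Set (ℤ → ℤ), MeasurableSet A →
      (fun (ω : ℤ → ℤ) (n : ℤ) => ω (n + q)) ⁻¹' A =ᵐ[κ] A →
      (fun (ω : ℤ → ℤ) (n : ℤ) => ω (n + 1)) ⁻¹' A =ᵐ[κ] A) :
    ∃ σ : Measure UnitAddCircle, IsProbabilityMeasure σ ∧
      (∀ n : ℤ, ∫ x, fourier n x ∂σ = ∫ ω, ((ω 0 * ω n : ℤ) : ℂ) ∂κ) ∧
      σ.restrict {0}ᶜ ≪ volume ∧ (σ = Measure.dirac 0 ∨ volume ≪ σ) := by
  obtain ⟨σ, h1, h2, h3⟩ := Pool.Agent.Lib.MP_a5d0b3_an.Gen.spectral ⟨hval, hM, hgen⟩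
    (Pool.Agent.Lib.MP_a5d0b3_an.TR.of_sets hrat) hmul
  refine ⟨σ, h1, fun n => ?_, h3⟩
  rw [h2, Pool.Agent.Lib.MP_a5d0b3_an.cor, ← integral_complex_ofReal]
  simp only [Complex.ofReal_intCast]

end Pool.Agent.Results.MP_a5d0b3_an.SpectralMeasure
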