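import Pool.Agent.Lib.MP_a5d0b3_an.Main

set_option autoImplicit false
open MeasureTheory Filter Topology
open scoped ENNReal

namespace Pool.Agent.Results.MP_a5d0b3_an.Structure

/-- If a measure quasi-generic for the Liouville function gives a system isomorphic to
`(x, y) ↦ (x, x + y)` on the 2-torus, then it is an equal mixture of the laws of the processes
`n ↦ F (y + n x)` and `n ↦ G (y + n x)` with `(x, y)` uniform on the torus, and it is invariant
under the sign flip. -/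
theorem result (κ : Measure (ℤ → ℤ)) (M : ℕ → ℕ) (hκ : IsProbabilityMeasure κ)
    (hM : Tendsto M atTop atTop)
    (hgen : ∀ (F : Finset ℤ) (p : ℤ → ℤ),
      Tendsto (fun k : ℕ =>
        ((((Finset.Icc (1 : ℤ) (M k)).filter (fun m : ℤ =>
            ∀ i ∈ F, (-1 : ℤ) ^ (ArithmeticFunction.cardFactors (m + i).natAbs) = p i)).card : ℝ)
          / (M k : ℝ)))
        atTop (𝓝 (κ {x : ℤ → ℤ | ∀ i ∈ F, x i = p i}).toReal))
    (φ : (ℤ → ℤ) → UnitAddCircle × UnitAddCircle)
    (ψ : UnitAddCircle × UnitAddCircle → (ℤ → ℤ))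
    (hφ : MeasurePreserving φ κ volume) (hψ : MeasurePreserving ψ volume κ)
    (h1 : ∀ᵐ ω ∂κ, φ (fun n => ω (n + 1)) = ((φ ω).1, (φ ω).1 + (φ ω).2))
    (h2 : ∀ᵐ z ∂(volume : Measure (UnitAddCircle × UnitAddCircle)),
      ψ (z.1, z.1 + z.2) = fun n => ψ z (n + 1))
    (h3 : ∀ᵐ ω ∂κ, ψ (φ ω) = ω)
    (h4 : ∀ᵐ z ∂(volume : Measure (UnitAddCircle × UnitAddCircle)), φ (ψ z) = z) :
    ∃ F G : UnitAddCircle → ℤ, Measurable F ∧ Measurable G ∧
      κ = (2⁻¹ : ℝ≥0∞) • (volume : Measure (UnitAddCircle × UnitAddCircle)).map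
            (fun z (n : ℤ) => F (z.2 + n • z.1)) +
          (2⁻¹ : ℝ≥0∞) • (volume : Measure (UnitAddCircle × UnitAddCircle)).map
            (fun z (n : ℤ) => G (z.2 + n • z.1)) ∧
      κ.map (fun ω => -ω) = κ :=
  Pool.Agent.Lib.MP_a5d0b3_an.main
    (a := fun n => (-1 : ℤ) ^ (ArithmeticFunction.cardFactors n.natAbs))
    ⟨fun _ => neg_one_pow_eq_or _ _, hM, hgen⟩
    (fun n hn => by
      rw [Int.natAbs_mul, ArithmeticFunction.cardFactors_mul (by simp) (by simpa using hn),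
        show (2 : ℤ).natAbs = 2 from rfl, ArithmeticFunction.cardFactors_apply_prime Nat.prime_two,
        pow_add]
      simp)
    hφ hψ h1 h2 h3 h4

end Pool.Agent.Results.MP_a5d0b3_an.Structure
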